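import Mathlib

set_option autoImplicit false

namespace Pool.Agent.Results.MP_e69082_gt.ElementaryQuotients

open Set Filter Topology Function

universe u

/-- There is no Hausdorff group topology strictly coarser than the given one. -/
def Minimal (G : Type u) [Group G] [τ : TopologicalSpace G] : Prop :=
  ∀ σ : TopologicalSpace G, @IsTopologicalGroup G σ _ → @T2Space G σ → τ ≤ σ → σ = τ

/-- Every closed subgroup, with the subspace topology, is minimal. -/
def CMinimal (G : Type u) [Group G] [TopologicalSpace G] : Prop :=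
  ∀ H : Subgroup G, IsClosed (H : Set G) → Minimal H

/-! ### The group -/

section Construction

variable (p : ℕ) [hp : Fact p.Prime] (A : Type u) [AddCommGroup A] [Module (ZMod p) A]

abbrev B2 := A →ₗ[ZMod p] A →ₗ[ZMod p] (ZMod p)
abbrev B3 := A →ₗ[ZMod p] B2 p A

variable {p A}

noncomputable def rt (t : B3 p A) : B3 p A := (LinearMap.lflip.toLinearMap ∘ₗ t).flip
noncomputable def tens (a b : A) : B2 p A →+ ZMod p := AddMonoidHom.mk' (fun β => β a b) fun _ _ => rfl
@[simp] lemma rt_ap (t : B3 p A) (x y z : A) : rt t z x y = t x y z := rfl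
@[simp] lemma tens_ap (a b : A) (β : B2 p A) : tens a b β = β a b := rfl

variable (p A) in
@[ext] structure G where
  a : A
  u : B2 p A →+ ZMod p
  w : B3 p A → ZMod p

noncomputable instance : Mul (G p A) := ⟨fun g h => ⟨g.a + h.a, g.u + h.u + tens g.a h.a,
  fun t => g.w t + h.w t + h.u (t g.a) + g.u (rt t h.a)⟩⟩
noncomputable instance : One (G p A) := ⟨⟨0, 0, 0⟩⟩
noncomputable instance : Inv (G p A) := ⟨fun g => ⟨-g.a, -g.u + tens g.a g.a,
  fun t => -g.w t + g.u (t g.a) + g.u (rt t g.a) - t g.a g.a g.a⟩⟩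

@[simp] lemma ma (g h : G p A) : (g * h).a = g.a + h.a := rfl
@[simp] lemma mu (g h : G p A) (β) : (g * h).u β = g.u β + h.u β + β g.a h.a := rfl
@[simp] lemma mw (g h : G p A) (t) :
    (g * h).w t = g.w t + h.w t + h.u (t g.a) + g.u (rt t h.a) := rfl
@[simp] lemma oa : (1 : G p A).a = 0 := rfl
@[simp] lemma ou : (1 : G p A).u = 0 := rfl
@[simp] lemma ow : (1 : G p A).w = 0 := rfl
@[simp] lemma ia (g : G p A) : g⁻¹.a = -g.a := rfl
@[simp] lemma iu (g : G p A) (β) : g⁻¹.u β = -g.u β + β g.a g.a := rfl
@[simp] lemma iw (g : G p A) (t) :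
    g⁻¹.w t = -g.w t + g.u (t g.a) + g.u (rt t g.a) - t g.a g.a g.a := rfl

noncomputable instance : Group (G p A) := Group.ofLeftAxioms
  (fun g h k => G.ext (add_assoc _ _ _) (by ext; simp; ring) (by ext; simp; ring))
  (fun g => G.ext (by simp) (by ext; simp) (by ext; simp))
  fun g => G.ext (by simp) (by ext; simp) (by ext; simp; ring)

lemma ucs : Subgroup.upperCentralSeries (G p A) 3 = ⊤ := by
  have h1 : ∀ g : G p A, g.a = 0 → (∀ β, g.u β = 0) →
      g ∈ Subgroup.upperCentralSeries (G p A) 1 := by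
    intro g h1 h2
    rw [Subgroup.upperCentralSeries_one, Subgroup.mem_center_iff]
    intro h
    ext
    · simp [h1]
    · simp [h1]
      ring
    · simp [h1, h2]
      ring
  have h2 : ∀ g : G p A, g.a = 0 → g ∈ Subgroup.upperCentralSeries (G p A) 2 := by
    intro g h2
    rw [Subgroup.mem_upperCentralSeries_succ_iff]
    intro y
    refine h1 (g * y * g⁻¹ * y⁻¹) ?_ fun β => ?_
    · simp [h2]
    · simp [h2]
  rw [eq_top_iff]
  intro g _
  rw [Subgroup.mem_upperCentralSeries_succ_iff]
  intro y
  exact h2 (g * y * g⁻¹ * y⁻¹) (by simp)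

instance : Group.IsNilpotent (G p A) := ⟨⟨3, ucs⟩⟩

variable [TopologicalSpace A] [DiscreteTopology A]

noncomputable def emb (g : G p A) : A × (B2 p A → ZMod p) × (B3 p A → ZMod p) := (g.a, g.u, g.w)
noncomputable instance : TopologicalSpace (G p A) := .induced emb inferInstance
omit [DiscreteTopology A] in
lemma ie : IsInducing (emb : G p A → _) := ⟨rfl⟩
omit [DiscreteTopology A] in
lemma ca : Continuous (G.a : G p A → A) := continuous_fst.comp ie.continuous
omit [DiscreteTopology A] in
lemma cu (β : B2 p A) : Continuous fun g : G p A => g.u β :=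
  (continuous_apply β).comp (continuous_fst.comp (continuous_snd.comp ie.continuous))
omit [DiscreteTopology A] in
lemma cw (t : B3 p A) : Continuous fun g : G p A => g.w t :=
  (continuous_apply t).comp (continuous_snd.comp (continuous_snd.comp ie.continuous))
lemma cu2 (f : A → B2 p A) : Continuous fun q : G p A × G p A => q.2.u (f q.1.a) :=
  (continuous_prod_of_discrete_left.2 fun a => cu (f a) :
    Continuous fun q : A × G p A => q.2.u (f q.1)).comp (ca.prodMap continuous_id)
lemma c2 (f : A → A → ZMod p) : Continuous fun q : G p A × G p A => f q.1.a q.2.a :=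
  (continuous_of_discreteTopology (f := fun q : A × A => f q.1 q.2)).comp (ca.prodMap ca)

instance : IsTopologicalGroup (G p A) where
  continuous_mul := ie.continuous_iff.2 (((ca.comp continuous_fst).add (ca.comp continuous_snd)
    ).prodMk ((continuous_pi fun β => (((cu β).comp continuous_fst).add ((cu β).comp continuous_snd)
      ).add (c2 fun a b => β a b)).prodMk (continuous_pi fun t => ((((cw t).comp continuous_fst).add
        ((cw t).comp continuous_snd)).add (cu2 t)).add ((cu2 (rt t)).comp continuous_swap))))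
  continuous_inv := ie.continuous_iff.2 (ca.neg.prodMk ((continuous_pi fun β => (cu β).neg.add
    (continuous_of_discreteTopology (f := fun a => β a a).comp ca)).prodMk (continuous_pi fun t =>
      (((cw t).neg.add ((cu2 t).comp (continuous_id.prodMk continuous_id))).add ((cu2 (rt t)).comp
        (continuous_id.prodMk continuous_id))).sub
          (continuous_of_discreteTopology (f := fun a => t a a a).comp ca))))

instance : T2Space (G p A) := (IsEmbedding.mk ie fun _ _ h => G.ext (congrArg (·.1) h)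
  (DFunLike.coe_injective (congrArg (·.2.1) h)) (congrArg (·.2.2) h)).t2Space

omit [DiscreteTopology A] in
lemma cpt (e : A) : IsCompact {g : G p A | g.a = e} := by
  have : range (emb : G p A → _) = ⋂ x, ⋂ y, {q | q.2.1 (x + y) = q.2.1 x + q.2.1 y} := by
    ext q
    simp only [mem_iInter]
    exact ⟨fun ⟨g, h⟩ x y => h ▸ map_add g.u x y, fun h => ⟨⟨_, AddMonoidHom.mk' _ h, _⟩, rfl⟩⟩
  simpa [preimage, emb] using ie.isCompact_preimage (this ▸ isClosed_iInter fun x =>
    isClosed_iInter fun y => isClosed_eq (by fun_prop) (by fun_prop))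
      ((isCompact_singleton (x := e)).prod isCompact_univ)

omit [TopologicalSpace A] [DiscreteTopology A] in
lemma lin (S : Submodule (ZMod p) A) :
    ∃ (e : A) (t : B3 p A), ∀ a ∈ S, (∀ x ∈ S, ∀ y ∈ S,
      t a x y - t a y x - (t x y a - t y x a) = 0) → ∃ c : ZMod p, a = c • e := by
  classical
  let b := Module.Basis.ofVectorSpace (ZMod p) S
  obtain ⟨π, hπ⟩ := S.subtype.exists_leftInverse_of_injective S.ker_subtype
  have p1 (x : S) : π x = x := DFunLike.congr_fun hπ x
  rcases isEmpty_or_nonempty (Module.Basis.ofVectorSpaceIndex (ZMod p) S) with h | ⟨⟨i⟩⟩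
  · exact ⟨0, 0, fun a ha _ => ⟨0, (congrArg Subtype.val (b.repr.injective (a₁ := ⟨a, ha⟩)
      (a₂ := 0) (Subsingleton.elim _ _))).trans (zero_smul _ _).symm⟩⟩
  refine ⟨b i, (b.toDual.compl₁₂ π π).compr₂ (.toSpanSingleton (ZMod p) _ (b.coord i ∘ₗ π)),
    fun a ha h => ⟨b.repr ⟨a, ha⟩ i, congrArg Subtype.val (b.repr.injective (a₁ := ⟨a, ha⟩)
      (a₂ := b.repr ⟨a, ha⟩ i • b i) (Finsupp.ext fun n => ?_))⟩⟩
  by_cases e : n = i
  · simp [e]
  · simpa [p1, show π a = ⟨a, ha⟩ from p1 ⟨a, ha⟩, e, Ne.symm e, Module.Basis.toDual_apply_left]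
      using h _ (b n).2 _ (b i).2

omit [TopologicalSpace A] [DiscreteTopology A] in
lemma cmw (g x y : G p A) (t : B3 p A) :
    (g * (x * y * x⁻¹ * y⁻¹) * g⁻¹ * (x * y * x⁻¹ * y⁻¹)⁻¹).w t =
    t g.a x.a y.a - t g.a y.a x.a - (t x.a y.a g.a - t y.a x.a g.a) := by
  have a2 (β) : (x * y * x⁻¹ * y⁻¹).u β = β x.a y.a - β y.a x.a := by
    simp
    ring
  have a1 : (x * y * x⁻¹ * y⁻¹).a = 0 := by simp
  generalize x * y * x⁻¹ * y⁻¹ = m at a1 a2
  simp [a1, a2]
  ring

lemma key {K : Type u} [Group K] [TopologicalSpace K] [IsTopologicalGroup K] [T2Space K]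
    (j : K →* G p A)
    (hc : ∀ D, IsCompact D → IsCompact (j ⁻¹' D)) : Tendsto j (𝓝 1) (𝓝 1) := by
  classical
  have h0 (D) (h : IsCompact D) (k : 1 ∉ D) : ∀ᶠ g in 𝓝 (1 : K), j g ∉ D :=
    (hc D h).isClosed.isOpen_compl.mem_nhds (by simpa using k)
  suffices ∀ᶠ g in 𝓝 (1 : K), (j g).a = 0 from fun U hU => mem_map.2 <| by
    filter_upwards [this, h0 _ ((cpt 0).diff isOpen_interior) fun k =>
      k.2 (mem_interior_iff_mem_nhds.2 hU)] with g h1 h2
    exact by_contra fun k => h2 ⟨h1, fun e => k (interior_subset (s := U) e)⟩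
  let S' : AddSubgroup A :=
    { carrier := range fun g => (j g).a
      zero_mem' := ⟨1, by simp⟩
      add_mem' := fun ⟨g, h⟩ ⟨k, l⟩ => ⟨g * k, by simp [← h, ← l]⟩
      neg_mem' := fun ⟨g, h⟩ => ⟨g⁻¹, by simp [← h]⟩ }
  let S : Submodule (ZMod p) A := AddSubgroup.toZModSubmodule p S'
  have hS (x : A) : x ∈ S ↔ ∃ g, (j g).a = x := Iff.rfl
  obtain ⟨e, t, ht⟩ : ∃ (e : A) (t : B3 p A), ∀ a ∈ S, (∀ x ∈ S, ∀ y ∈ S,
    t a x y - t a y x - (t x y a - t y x a) = 0) → ∃ c : ZMod p, a = c • e := lin S
  have hfin : ∀ᶠ g in 𝓝 (1 : K), ∀ c : ZMod p, (j g).a = c • e → c • e = 0 := by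
    rw [eventually_all]
    intro c
    by_cases k : c • e = 0
    · simp [k]
    · exact (h0 _ (cpt (c • e)) (Ne.symm k)).mono fun g a b => (a b).elim
  filter_upwards [hfin,
    (hc _ (cpt 0)).eventually_forall_of_forall_eventually (x₀ := (1 : K))
      (P := fun g m => j (g * m * g⁻¹ * m⁻¹) ∉ {g | g.a = 0} ∩ {g | g.w t ∈ ({0}ᶜ : Set (ZMod p))})
      fun m _ =>
        ((by fun_prop : Continuous fun z : K × K => z.1 * z.2 * z.1⁻¹ * z.2⁻¹).tendsto' (1, m) 1
          (by simp)).eventually (h0 _ ((cpt 0).inter_right ((isClosed_discrete ({0}ᶜ : Set (ZMod p))).preimage (cw t)))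
            fun k => (show ¬ ((1 : G p A).w t ≠ 0) from fun h => h rfl) k.2)] with g h1 h2
  obtain ⟨c, hc⟩ := ht _ ((hS _).2 ⟨g, rfl⟩) <| by
    intro x' hx' y' hy'
    obtain ⟨x, rfl⟩ := (hS _).1 hx'
    obtain ⟨y, rfl⟩ := (hS _).1 hy'
    by_contra k
    refine h2 (x * y * x⁻¹ * y⁻¹) (by simp) ⟨by simp, ?_⟩
    show (j (g * (x * y * x⁻¹ * y⁻¹) * g⁻¹ * (x * y * x⁻¹ * y⁻¹)⁻¹)).w t ≠ 0
    intro hk
    apply k
    rw [← hk]
    simp only [map_mul, map_inv]
    exact (cmw _ _ _ _).symm
  exact hc.trans (h1 c hc)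

noncomputable def ρ : G p A →* Multiplicative A :=
  MonoidHom.mk' (fun g => .ofAdd g.a) fun _ _ => rfl

omit [TopologicalSpace A] [DiscreteTopology A] in
lemma ρ_ker : ((ρ : G p A →* Multiplicative A).ker : Set (G p A)) = {g | g.a = 0} :=
  Set.ext fun g => by
    simp [ρ, MonoidHom.mem_ker]

omit [TopologicalSpace A] [DiscreteTopology A] in
lemma ρ_surj : Surjective (ρ : G p A →* Multiplicative A) :=
  fun x => ⟨⟨x.toAdd, 0, 0⟩, rfl⟩

lemma cMinimal : CMinimal (G p A) := by
  intro H hH σ a1 a2 a3
  refine IsTopologicalGroup.ext a1 H.instIsTopologicalGroupSubtypeMem (le_antisymm ?_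
      (_root_.nhds_mono a3))
  refine (@key p _ A _ _ _ _ H _ σ a1 a2 H.subtype fun D hD => ?_).le_comap.trans
    (nhds_subtype _ _).ge
  exact image_id (H.subtype ⁻¹' D) ▸ @IsCompact.image _ _ instTopologicalSpaceSubtype σ _ id
      (@IsClosedEmbedding.isCompact_preimage _ _ instTopologicalSpaceSubtype _ _
        hH.isClosedEmbedding_subtypeVal _ hD) (continuous_id_iff_le.2 a3)

end Construction

/-! ### Infinite elementary abelian groups are not minimal -/

lemma not_minimal_of_elementary (p : ℕ) [hp : Fact p.Prime] (V : Type u) [Group V] [Infinite V]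
    [TopologicalSpace V] [DiscreteTopology V] {W : Type u} [AddCommGroup W] [Module (ZMod p) W]
    (f : V →* Multiplicative W) (hf : Injective f) : ¬ Minimal V := by
  classical
  intro hmin
  -- the range is a subspace
  let S' : AddSubgroup W := Subgroup.toAddSubgroup' f.range
  let S : Submodule (ZMod p) W := AddSubgroup.toZModSubmodule p S'
  have hmem (v : V) : (f v).toAdd ∈ S := ⟨v, rfl⟩
  have hsurj (x : S) : ∃ v, (f v).toAdd = x := x.2
  let b := Module.Basis.ofVectorSpace (ZMod p) S
  let ι := Module.Basis.ofVectorSpaceIndex (ZMod p) S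
  have hinfS : Infinite S := Infinite.of_injective (fun v : V => (⟨(f v).toAdd, hmem v⟩ : S))
    fun x y h => hf (by simpa using congrArg Subtype.val h)
  have hι : Infinite ι := by
    by_contra h
    rw [not_infinite_iff_finite] at h
    have : Module.Finite (ZMod p) S := Module.Finite.of_basis b
    have : Finite S := Module.finite_of_finite (ZMod p)
    exact not_finite S
  let φ : V →* Multiplicative (ι → ZMod p) :=
    MonoidHom.mk' (fun v => .ofAdd fun i => b.repr ⟨(f v).toAdd, hmem v⟩ i) fun x y => by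
      rw [← ofAdd_add]
      congr 1
      funext i
      have : (⟨(f (x * y)).toAdd, hmem (x * y)⟩ : S) =
        ⟨(f x).toAdd, hmem x⟩ + ⟨(f y).toAdd, hmem y⟩ := by
          apply Subtype.ext
          simp
      rw [this, map_add]
      rfl
  have hφ : Injective φ := by
    intro x y h
    have h1 : b.repr ⟨(f x).toAdd, hmem x⟩ = b.repr ⟨(f y).toAdd, hmem y⟩ := by
      ext i
      exact congrFun (Multiplicative.ofAdd.injective h) i
    have h2 := congrArg Subtype.val (b.repr.injective h1)
    exact hf (by simpa using h2)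
  have e := hmin _ (topologicalGroup_induced φ) (@IsEmbedding.t2Space _ _ (.induced φ _) _ _ _
      (@IsEmbedding.mk _ _ (.induced φ _) _ _ (@IsInducing.mk _ _ (.induced φ _) _ _ rfl) hφ))
      continuous_of_discreteTopology.le_induced
  choose v hv using hsurj
  have : Tendsto (fun i : ι => v (b i)) cofinite (𝓝 1) := by
    rw [← e, nhds_induced, tendsto_comap_iff, map_one]
    refine tendsto_pi_nhds.2 fun i => tendsto_const_nhds.congr' ?_
    have h1 : ∀ᶠ n in cofinite, n ≠ i := (Set.finite_singleton i).compl_mem_cofinite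
    refine h1.mono fun n hn => ?_
    show 0 = b.repr ⟨(f (v (b n))).toAdd, _⟩ i
    have h2 : (⟨(f (v (b n))).toAdd, hmem _⟩ : S) = b n := Subtype.ext (hv (b n))
    rw [h2, b.repr_self, Finsupp.single_eq_of_ne hn.symm]
  rw [nhds_discrete, tendsto_pure] at this
  obtain ⟨n, hn⟩ := this.exists
  have h3 := hv (b n)
  rw [hn, map_one] at h3
  exact b.ne_zero n (Subtype.ext h3.symm)

/-! ### The quotient is periodic -/

lemma int_not_minimal (V : Type u) [Group V] [TopologicalSpace V] [DiscreteTopology V]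
    (e : V ≃* Multiplicative ℤ) : ¬ Minimal V := by
  intro hmin
  let φ : V →* Multiplicative ℤ_[2] :=
    (AddMonoidHom.toMultiplicative (Int.castRingHom ℤ_[2]).toAddMonoidHom).comp e.toMonoidHom
  have hφ : Injective φ := by
    intro x y h
    have h1 : (((e x).toAdd : ℤ) : ℤ_[2]) = (((e y).toAdd : ℤ) : ℤ_[2]) :=
      Multiplicative.ofAdd.injective h
    exact e.injective (Multiplicative.toAdd.injective (by exact_mod_cast h1))
  have h := hmin _ (topologicalGroup_induced φ) (@IsEmbedding.t2Space _ _ (.induced φ _) _ _ _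
      (@IsEmbedding.mk _ _ (.induced φ _) _ _ (@IsInducing.mk _ _ (.induced φ _) _ _ rfl) hφ))
      continuous_of_discreteTopology.le_induced
  have : Tendsto (fun n : ℕ => e.symm (.ofAdd ((2 : ℤ) ^ n))) atTop (𝓝 1) := by
    rw [← h, nhds_induced, tendsto_comap_iff, map_one]
    have h2 : Tendsto (fun n : ℕ => (2 : ℤ_[2]) ^ n) atTop (𝓝 0) := by
      apply tendsto_pow_atTop_nhds_zero_of_norm_lt_one
      have := PadicInt.norm_p (p := 2)
      push_cast at this
      rw [this]
      norm_num
    refine h2.congr fun n => ?_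
    simp [φ]
    rfl
  rw [nhds_discrete, tendsto_pure] at this
  obtain ⟨n, hn⟩ := this.exists
  have h4 := congrArg (fun z => (e z).toAdd) hn
  simp at h4

lemma periodic (G : Type u) [Group G] [TopologicalSpace G] [IsTopologicalGroup G] [T2Space G]
    (hG : CMinimal G) (N : Subgroup G) [N.Normal] (hN : IsOpen (N : Set G)) (x : G ⧸ N) :
    IsOfFinOrder x := by
  obtain ⟨g, rfl⟩ := QuotientGroup.mk_surjective x
  by_contra h
  have h1 : ∀ n : ℤ, g ^ n ∈ N → n = 0 := by
    intro n hn
    by_contra h0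
    apply h
    rw [isOfFinOrder_iff_zpow_eq_one]
    exact ⟨n, h0, by rw [← QuotientGroup.mk_zpow]; exact (QuotientGroup.eq_one_iff _).2 hn⟩
  have hinj : Injective fun n : ℤ => g ^ n := by
    intro m n hmn
    have : g ^ (m - n) = 1 := by
      rw [zpow_sub, show g ^ m = g ^ n from hmn, mul_inv_cancel]
    have := h1 (m - n) (this ▸ N.one_mem)
    omega
  let H := Subgroup.zpowers g
  have hd : DiscreteTopology H := by
    rw [discreteTopology_iff_isOpen_singleton_one]
    have : ({1} : Set H) = Subtype.val ⁻¹' (N : Set G) := by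
      ext ⟨y, hy⟩
      obtain ⟨n, rfl⟩ := Subgroup.mem_zpowers_iff.1 hy
      simp only [mem_singleton_iff, mem_preimage, SetLike.mem_coe]
      constructor
      · intro h2
        have := congrArg Subtype.val h2
        simp only [Subgroup.coe_one] at this
        rw [this]
        exact N.one_mem
      · intro h2
        apply Subtype.ext
        simp [h1 n h2]
    rw [this]
    exact hN.preimage continuous_subtype_val
  have hcl : IsClosed (H : Set G) := Subgroup.isClosed_of_discrete
  have e : Multiplicative ℤ ≃* H := MulEquiv.ofBijective (zpowersHom G g).rangeRestrict ⟨by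
    intro m n h
    have := congrArg Subtype.val h
    exact Multiplicative.toAdd.injective (hinj this), (zpowersHom G g).rangeRestrict_surjective⟩
  exact int_not_minimal H e.symm (hG H hcl)

/-- **Discrete quotients of c-minimal groups.**
(1) For every prime `p` and every vector space `A` over `𝔽_p` there are a Hausdorff c-minimal
topological group `G` and a compact open normal subgroup `N` with `G/N ≅ A`, and no infinite
subgroup of the discrete group `G/N` is minimal. So the answer to Q1 is negative whenever `A` is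
infinite, and then in the strongest possible way.
(2) If `G` is any c-minimal Hausdorff topological group and `N` an open normal subgroup, then `G/N`
is periodic. -/
theorem result :
    (∀ (p : ℕ) [Fact p.Prime] (A : Type u) [AddCommGroup A] [Module (ZMod p) A],
      ∃ (G : Type u) (_ : Group G) (_ : TopologicalSpace G) (N : Subgroup G) (_ : N.Normal),
        IsTopologicalGroup G ∧ T2Space G ∧ CMinimal G ∧
        (∃ _ : Group.IsNilpotent G, Group.nilpotencyClass G ≤ 3) ∧
        IsCompact (N : Set G) ∧ IsOpen (N : Set G) ∧ DiscreteTopology (G ⧸ N) ∧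
        Nonempty (G ⧸ N ≃* Multiplicative A) ∧
        ∀ H : Subgroup (G ⧸ N), Infinite H → ¬ Minimal H) ∧
    (∀ (G : Type u) [Group G] [TopologicalSpace G] [IsTopologicalGroup G] [T2Space G],
      CMinimal G → ∀ (N : Subgroup G) [N.Normal], IsOpen (N : Set G) →
        ∀ x : G ⧸ N, IsOfFinOrder x) := by
  refine ⟨fun p _ A _ _ => ?_, fun G _ _ _ _ hG N _ hN x => periodic G hG N hN x⟩
  let _ : TopologicalSpace A := ⊥
  have : DiscreteTopology A := ⟨rfl⟩
  have o : IsOpen ((ρ : G p A →* Multiplicative A).ker : Set (G p A)) := by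
    rw [ρ_ker]
    exact (isOpen_discrete {(0 : A)}).preimage ca
  have := QuotientGroup.discreteTopology o
  have e := QuotientGroup.quotientKerEquivOfSurjective (ρ : G p A →* Multiplicative A) ρ_surj
  refine ⟨G p A, inferInstance, inferInstance, ρ.ker, inferInstance, inferInstance, inferInstance,
    cMinimal, ⟨inferInstance, Subgroup.upperCentralSeries_eq_top_iff_nilpotencyClass_le.1 ucs⟩,
    by rw [ρ_ker]; exact cpt 0, o, inferInstance, ⟨e⟩, fun H hH => ?_⟩
  exact not_minimal_of_elementary p H (W := A) (e.toMonoidHom.comp H.subtype)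
    (e.injective.comp Subtype.val_injective)

end Pool.Agent.Results.MP_e69082_gt.ElementaryQuotients
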